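import Mathlib

set_option autoImplicit false

namespace Pool.Agent.LibTypeB

open Finset

variable {α : Type*} [DecidableEq α]

/-- Multiplicity functions of total `n`, supported on `Ω` and invariant under `τ` on `Ω`. -/
def Inv (Ω : Finset α) (τ : α → α) (n : ℕ) : Finset (α → ℕ) :=
  (Ω.piAntidiag n).filter (fun M => ∀ x ∈ Ω, M (τ x) = M x)

lemma mem_Inv {Ω : Finset α} {τ : α → α} {n : ℕ} {M : α → ℕ} :
    M ∈ Inv Ω τ n ↔ (∑ x ∈ Ω, M x = n ∧ ∀ x, M x ≠ 0 → x ∈ Ω) ∧ ∀ x ∈ Ω, M (τ x) = M x := by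
  unfold Inv
  rw [mem_filter, mem_piAntidiag]

/-- The indicator of the orbit of `x`. -/
def orb (τ : α → α) (x : α) : α → ℕ := fun y => if y = x ∨ y = τ x then 1 else 0

lemma orb_self (τ : α → α) (x : α) : orb τ x x = 1 := by simp [orb]

lemma orb_le_of_ne {Ω : Finset α} {τ : α → α} {n : ℕ} {M : α → ℕ} (hM : M ∈ Inv Ω τ n) {x : α}
    (hx : x ∈ Ω) (h : M x ≠ 0) (y : α) : orb τ x y ≤ M y := by
  rw [mem_Inv] at hM
  unfold orb
  split_ifs with hy
  · rcases hy with rfl | rfl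
    · omega
    · rw [hM.2 x hx]; omega
  · omega

lemma orb_inv {Ω : Finset α} {τ : α → α} (hinv : ∀ x ∈ Ω, τ (τ x) = x) {x : α} (hx : x ∈ Ω)
    (y : α) (hy : y ∈ Ω) : orb τ x (τ y) = orb τ x y := by
  unfold orb
  congr 1
  apply propext
  constructor
  · rintro (h | h)
    · right; rw [← h, hinv y hy]
    · left; rw [← hinv y hy, h, hinv x hx]
  · rintro (rfl | rfl)
    · right; rfl
    · left; exact hinv x hx

lemma sum_orb {Ω : Finset α} {τ : α → α} {x : α} (hx : x ∈ Ω) (hτ : τ x ∈ Ω) :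
    ∑ y ∈ Ω, orb τ x y = ({x, τ x} : Finset α).card := by
  unfold orb
  rw [← Finset.card_filter]
  congr 1
  ext y
  simp only [mem_filter, mem_insert, mem_singleton]
  constructor
  · exact fun h => h.2
  · rintro (rfl | rfl)
    · exact ⟨hx, Or.inl rfl⟩
    · exact ⟨hτ, Or.inr rfl⟩

/-- Key bijection: removing one copy of the orbit of `x`. -/
lemma sum_mult {Ω : Finset α} {τ : α → α} (hmap : ∀ x ∈ Ω, τ x ∈ Ω)
    (hinv : ∀ x ∈ Ω, τ (τ x) = x) {x : α} (hx : x ∈ Ω) (n : ℕ) :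
    ∑ M ∈ Inv Ω τ (n + ({x, τ x} : Finset α).card), M x = ∑ M ∈ Inv Ω τ n, (M x + 1) := by
  have h1 : ∑ M ∈ Inv Ω τ (n + ({x, τ x} : Finset α).card), M x =
      ∑ M ∈ (Inv Ω τ (n + ({x, τ x} : Finset α).card)).filter (fun M => M x ≠ 0), M x := by
    rw [Finset.sum_filter_ne_zero]
  rw [h1]
  refine Finset.sum_nbij' (fun M => M - orb τ x) (fun M => M + orb τ x) ?_ ?_ ?_ ?_ ?_
  · intro M hM
    rw [mem_filter] at hM
    obtain ⟨hM, hx0⟩ := hM
    have hle := orb_le_of_ne hM hx hx0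
    rw [mem_Inv] at hM ⊢
    refine ⟨⟨?_, ?_⟩, ?_⟩
    · have : ∑ y ∈ Ω, M y = ∑ y ∈ Ω, (M - orb τ x) y + ∑ y ∈ Ω, orb τ x y := by
        rw [← Finset.sum_add_distrib]
        apply Finset.sum_congr rfl
        intro y _
        have := hle y
        simp only [Pi.sub_apply]
        omega
      rw [hM.1.1, sum_orb hx (hmap x hx)] at this
      omega
    · intro y hy
      apply hM.1.2
      simp only [Pi.sub_apply] at hy
      omega
    · intro y hy
      simp only [Pi.sub_apply]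
      rw [hM.2 y hy, orb_inv hinv hx y hy]
  · intro M hM
    rw [mem_filter]
    rw [mem_Inv] at hM ⊢
    refine ⟨⟨⟨?_, ?_⟩, ?_⟩, ?_⟩
    · have : ∑ y ∈ Ω, (M + orb τ x) y = ∑ y ∈ Ω, M y + ∑ y ∈ Ω, orb τ x y := by
        rw [← Finset.sum_add_distrib]; rfl
      rw [this, hM.1.1, sum_orb hx (hmap x hx)]
    · intro y hy
      by_cases h0 : M y = 0
      · simp only [Pi.add_apply, h0, zero_add] at hy
        unfold orb at hy
        split_ifs at hy with h
        · rcases h with rfl | rfl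
          · exact hx
          · exact hmap x hx
        · exact absurd rfl hy
      · exact hM.1.2 y h0
    · intro y hy
      simp only [Pi.add_apply]
      rw [hM.2 y hy, orb_inv hinv hx y hy]
    · simp only [Pi.add_apply, orb_self]
      omega
  · intro M hM
    rw [mem_filter] at hM
    obtain ⟨hM, hx0⟩ := hM
    have hle := orb_le_of_ne hM hx hx0
    funext y
    have := hle y
    simp only [Pi.sub_apply, Pi.add_apply]
    omega
  · intro M hM
    funext y
    simp only [Pi.sub_apply, Pi.add_apply]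
    omega
  · intro M hM
    rw [mem_filter] at hM
    obtain ⟨hM, hx0⟩ := hM
    simp only [Pi.sub_apply, orb_self]
    omega

/-- The number of fixed points of `τ` on `Ω`. -/
def fixCard (Ω : Finset α) (τ : α → α) : ℕ := (Ω.filter (fun x => τ x = x)).card

lemma card_pair_fixed {τ : α → α} {x : α} (h : τ x = x) : ({x, τ x} : Finset α).card = 1 := by
  rw [h]; simp

lemma card_pair_nonfixed {τ : α → α} {x : α} (h : τ x ≠ x) : ({x, τ x} : Finset α).card = 2 :=
  Finset.card_pair (Ne.symm h)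

lemma total (Ω : Finset α) (τ : α → α) (n : ℕ) :
    ∑ x ∈ Ω, ∑ M ∈ Inv Ω τ n, M x = n * (Inv Ω τ n).card := by
  rw [Finset.sum_comm]
  rw [Finset.sum_congr rfl (fun M hM => (mem_Inv.1 hM).1.1)]
  simp [mul_comm]

theorem inv_rec {Ω : Finset α} {τ : α → α} (hmap : ∀ x ∈ Ω, τ x ∈ Ω)
    (hinv : ∀ x ∈ Ω, τ (τ x) = x) (n : ℕ) :
    (n + 2) * (Inv Ω τ (n + 2)).card =
      fixCard Ω τ * (Inv Ω τ (n + 1)).card + (Ω.card + n) * (Inv Ω τ n).card := by
  have key : ∀ x ∈ Ω, ∑ M ∈ Inv Ω τ (n + 2), M x =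
      (if τ x = x then (Inv Ω τ (n + 1)).card else 0) + (Inv Ω τ n).card
        + ∑ M ∈ Inv Ω τ n, M x := by
    intro x hx
    by_cases h : τ x = x
    · have h1 := sum_mult hmap hinv hx (n + 1)
      have h2 := sum_mult hmap hinv hx n
      rw [card_pair_fixed h] at h1 h2
      rw [h1, Finset.sum_add_distrib, h2, Finset.sum_add_distrib, if_pos h]
      simp only [sum_const, smul_eq_mul, mul_one]
      ring
    · have h1 := sum_mult hmap hinv hx n
      rw [card_pair_nonfixed h] at h1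
      rw [h1, Finset.sum_add_distrib, if_neg h]
      simp only [sum_const, smul_eq_mul, mul_one]
      ring
  have h3 := total Ω τ (n + 2)
  rw [Finset.sum_congr rfl key, Finset.sum_add_distrib, Finset.sum_add_distrib, total] at h3
  rw [← h3, ← Finset.sum_filter, fixCard]
  simp only [sum_const, smul_eq_mul]
  ring

theorem inv_zero (Ω : Finset α) (τ : α → α) : (Inv Ω τ 0).card = 1 := by
  rw [Finset.card_eq_one]
  refine ⟨0, ?_⟩
  ext M
  rw [mem_Inv, mem_singleton]
  constructor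
  · rintro ⟨⟨h1, h2⟩, -⟩
    funext x
    by_contra hne
    have hx := h2 x hne
    exact hne (Finset.sum_eq_zero_iff.1 h1 x hx)
  · rintro rfl
    simp

theorem inv_one {Ω : Finset α} {τ : α → α} (hmap : ∀ x ∈ Ω, τ x ∈ Ω)
    (hinv : ∀ x ∈ Ω, τ (τ x) = x) : (Inv Ω τ 1).card = fixCard Ω τ := by
  have h3 := total Ω τ 1
  rw [one_mul] at h3
  rw [← h3, fixCard, Finset.card_filter]
  apply Finset.sum_congr rfl
  intro x hx
  by_cases h : τ x = x
  · have h1 := sum_mult hmap hinv hx 0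
    rw [card_pair_fixed h, zero_add] at h1
    rw [h1, if_pos h, Finset.sum_add_distrib]
    have h0 := total Ω τ 0
    rw [zero_mul, Finset.sum_eq_zero_iff] at h0
    rw [h0 x hx]
    simp [inv_zero]
  · rw [if_neg h]
    apply Finset.sum_eq_zero
    intro M hM
    by_contra hne
    have hle := orb_le_of_ne hM hx hne
    rw [mem_Inv] at hM
    have : ∑ y ∈ Ω, orb τ x y ≤ ∑ y ∈ Ω, M y := Finset.sum_le_sum (fun y _ => hle y)
    rw [sum_orb hx (hmap x hx), card_pair_nonfixed h, hM.1.1] at this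
    omega

end Pool.Agent.LibTypeB
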