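import Mathlib

set_option autoImplicit false

namespace Pool.Agent.LibTypeB

open Finset

/-- Two monotone sequences with the same fiber sizes agree. -/
theorem mono_eq {n : ℕ} {β : Type*} [LinearOrder β] {f g : Fin n → β} (hf : Monotone f)
    (hg : Monotone g)
    (h : ∀ x, (univ.filter (fun i => f i = x)).card = (univ.filter (fun i => g i = x)).card) :
    f = g := by
  -- counts of initial segments agree
  have hle : ∀ (f g : Fin n → β), Monotone f → Monotone g →
      (∀ x, (univ.filter (fun i => f i = x)).card = (univ.filter (fun i => g i = x)).card) →
      ∀ i : Fin n, ¬ f i < g i := by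
    intro f g hf hg h i hlt
    have h1 : ((univ : Finset (Fin n)).filter (fun j => g j ≤ f i)).card ≤ (i : ℕ) := by
      have hsub : (univ : Finset (Fin n)).filter (fun j => g j ≤ f i) ⊆ Finset.Iio i := by
        intro j hj
        rw [mem_filter] at hj
        rw [Finset.mem_Iio]
        by_contra hij
        have hij' : i ≤ j := not_lt.1 hij
        exact absurd (lt_of_lt_of_le hlt (hg hij')) (not_lt.2 hj.2)
      calc _ ≤ (Finset.Iio i).card := Finset.card_le_card hsub
        _ = (i : ℕ) := by simp
    have h2 : (i : ℕ) + 1 ≤ ((univ : Finset (Fin n)).filter (fun j => f j ≤ f i)).card := by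
      have hsub : Finset.Iic i ⊆ (univ : Finset (Fin n)).filter (fun j => f j ≤ f i) := by
        intro j hj
        rw [Finset.mem_Iic] at hj
        rw [mem_filter]
        exact ⟨mem_univ _, hf hj⟩
      calc (i : ℕ) + 1 = (Finset.Iic i).card := by simp
        _ ≤ _ := Finset.card_le_card hsub
    have h3 : ∀ (k : Fin n → β), ((univ : Finset (Fin n)).filter (fun j => k j ≤ f i)).card =
        ∑ x ∈ ((univ.image f ∪ univ.image g ∪ univ.image k).filter (fun x => x ≤ f i)),
          (univ.filter (fun j => k j = x)).card := by
      intro k
      rw [Finset.card_eq_sum_card_fiberwise (f := k)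
        (t := (univ.image f ∪ univ.image g ∪ univ.image k).filter (fun x => x ≤ f i))]
      · apply Finset.sum_congr rfl
        intro x hx
        rw [mem_filter] at hx
        congr 1
        ext j
        simp only [mem_filter, mem_univ, true_and]
        constructor
        · exact fun h => h.2
        · intro h
          exact ⟨by rw [h]; exact hx.2, h⟩
      · intro j hj
        simp only [coe_filter, mem_univ, true_and, Set.mem_ofPred_eq] at hj
        simp only [coe_filter, mem_union, mem_image, mem_univ, true_and, Set.mem_ofPred_eq]
        exact ⟨Or.inr ⟨j, rfl⟩, hj⟩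
    have h4 := h3 f
    have h5 := h3 g
    have h6 : (univ.image f ∪ univ.image g ∪ univ.image f) =
        (univ.image f ∪ univ.image g ∪ univ.image g) := by
      ext x
      simp only [mem_union]
      tauto
    rw [h6, Finset.sum_congr rfl (fun x _ => h x), ← h5] at h4
    omega
  funext i
  exact le_antisymm (not_lt.1 (hle g f hg hf (fun x => (h x).symm) i))
    (not_lt.1 (hle f g hf hg h i))

end Pool.Agent.LibTypeB
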