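import Mathlib
import Pool.Agent.LibTypeB.InvRec
import Pool.Agent.LibTypeB.Mono

set_option autoImplicit false

namespace Pool.Agent.LibTypeB

open Finset

/-- Signed value of the letter in position `i` of the window (positions and letters from 0 become
letters from 1). -/
def sval {n : ℕ} (w : Equiv.Perm (Fin n) × (Fin n → Bool)) (i : Fin n) : ℤ :=
  (if w.2 i then (-1 : ℤ) else 1) * (((w.1 i : ℕ) : ℤ) + 1)

/-- Signed involutions. -/
def IsInvo {n : ℕ} (w : Equiv.Perm (Fin n) × (Fin n → Bool)) : Prop :=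
  ∀ i : Fin n, w.1 (w.1 i) = i ∧ w.2 (w.1 i) = w.2 i

/-- Sequences compatible with `w`. -/
def Compat {n : ℕ} (w : Equiv.Perm (Fin n) × (Fin n → Bool)) (s : Fin n → ℕ) : Prop :=
  (StrictMono fun i => toLex (s i, sval w i)) ∧ ∀ i, s i = 0 → w.2 i = false

/-- The signed label of the image. -/
def hh {n : ℕ} (w : Equiv.Perm (Fin n) × (Fin n → Bool)) (s : Fin n → ℕ) (i : Fin n) : ℤ :=
  (if w.2 i then (-1 : ℤ) else 1) * (s (w.1 i) : ℤ)

/-- The set of admissible pairs. -/
noncomputable def Om (r : ℕ) : Finset (ℕ × ℤ) :=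
  ({0} ×ˢ Finset.Icc (0 : ℤ) r) ∪ (Finset.Icc 1 r ×ˢ Finset.Icc (-(r : ℤ)) r)

lemma mem_Om {r : ℕ} {x : ℕ × ℤ} :
    x ∈ Om r ↔ x.1 ≤ r ∧ -(r : ℤ) ≤ x.2 ∧ x.2 ≤ r ∧ (x.1 = 0 → 0 ≤ x.2) := by
  unfold Om
  simp only [mem_union, mem_product, mem_singleton, mem_Icc]
  omega

lemma card_Om (r : ℕ) : (Om r).card = 2 * r * r + 2 * r + 1 := by
  unfold Om
  rw [Finset.card_union_of_disjoint, Finset.card_product, Finset.card_product]
  · simp only [card_singleton, Int.card_Icc, Nat.card_Icc]
    have h1 : ((r : ℤ) + 1 - 0).toNat = r + 1 := by omega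
    have h2 : ((r : ℤ) + 1 - -(r : ℤ)).toNat = 2 * r + 1 := by omega
    rw [h1, h2]
    have h3 : r + 1 - 1 = r := by omega
    rw [h3]
    ring
  · rw [Finset.disjoint_left]
    intro x hx hx'
    simp only [mem_product, mem_singleton, mem_Icc] at hx hx'
    omega

/-- The reflection. -/
def tau (x : ℕ × ℤ) : ℕ × ℤ := (x.2.natAbs, if x.2 < 0 then -(x.1 : ℤ) else x.1)

lemma tau_mem {r : ℕ} (x : ℕ × ℤ) (hx : x ∈ Om r) : tau x ∈ Om r := by
  rw [mem_Om] at *
  unfold tau
  simp only
  split_ifs with h <;> omega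

lemma tau_tau {r : ℕ} (x : ℕ × ℤ) (hx : x ∈ Om r) : tau (tau x) = x := by
  rw [mem_Om] at hx
  obtain ⟨a, b⟩ := x
  unfold tau
  simp only at *
  apply Prod.ext
  · simp only
    split_ifs <;> omega
  · simp only
    split_ifs <;> omega

lemma fixCard_Om (r : ℕ) : fixCard (Om r) tau = 2 * r + 1 := by
  unfold fixCard
  have h2 : ((r : ℤ) + 1 - -(r : ℤ)).toNat = 2 * r + 1 := by omega
  rw [← h2, ← Int.card_Icc]
  apply Finset.card_nbij' (fun x => x.2) (fun b => (b.natAbs, b))
  · intro x hx
    simp only [coe_filter, mem_Om, Set.mem_ofPred_eq] at hx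
    simp only [coe_Icc, Set.mem_Icc]
    omega
  · intro b hb
    simp only [coe_Icc, Set.mem_Icc] at hb
    rw [coe_filter]
    refine ⟨?_, ?_⟩
    · rw [mem_Om]
      simp only
      omega
    · unfold tau
      apply Prod.ext
      · rfl
      · simp only
        split_ifs <;> omega
  · intro x hx
    obtain ⟨a, b⟩ := x
    simp only [coe_filter, mem_Om, Set.mem_ofPred_eq, tau, Prod.mk.injEq] at hx
    simp only [Prod.mk.injEq, and_true]
    exact hx.2.1
  · intro b hb
    rfl

section forward

variable {n : ℕ} {w : Equiv.Perm (Fin n) × (Fin n → Bool)} {s : Fin n → ℕ}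

lemma sval_false {i : Fin n} (h : w.2 i = false) : sval w i = ((w.1 i : ℕ) : ℤ) + 1 := by
  simp [sval, h]

lemma sval_true {i : Fin n} (h : w.2 i = true) : sval w i = -(((w.1 i : ℕ) : ℤ) + 1) := by
  simp [sval, h]

lemma hh_false {i : Fin n} (h : w.2 i = false) : hh w s i = (s (w.1 i) : ℤ) := by
  simp [hh, h]

lemma hh_true {i : Fin n} (h : w.2 i = true) : hh w s i = -(s (w.1 i) : ℤ) := by
  simp [hh, h]

lemma Compat.mono (hc : Compat w s) : Monotone s := by
  intro i j hij
  rcases hij.lt_or_eq with h | h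
  · have h1 := hc.1 h
    simp only at h1
    rw [Prod.Lex.toLex_lt_toLex'] at h1
    exact h1.1
  · rw [h]

lemma Compat.val_lt (hc : Compat w s) {i j : Fin n} (hij : i < j) (h : s i = s j) :
    sval w i < sval w j := by
  have h1 := hc.1 hij
  simp only at h1
  rw [Prod.Lex.toLex_lt_toLex'] at h1
  exact h1.2 h

lemma Compat.pos_of_neg (hc : Compat w s) (hi : IsInvo w) {i : Fin n} (h : w.2 i = true) :
    0 < s (w.1 i) := by
  rcases Nat.eq_zero_or_pos (s (w.1 i)) with h0 | h0
  · have h1 := hc.2 _ h0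
    rw [(hi i).2, h] at h1
    exact absurd h1 (by simp)
  · exact h0

lemma Compat.hh_neg_iff (hc : Compat w s) (hi : IsInvo w) (i : Fin n) :
    hh w s i < 0 ↔ w.2 i = true := by
  rcases h : w.2 i with _ | _
  · rw [hh_false h]
    simp
  · rw [hh_true h]
    have := hc.pos_of_neg hi h
    simp only [iff_true]
    omega

lemma Compat.L_mono (hc : Compat w s) : Monotone (fun i => toLex (s i, hh w s i)) := by
  intro i j hij
  rcases hij.lt_or_eq with h | h
  · simp only
    rw [Prod.Lex.toLex_le_toLex']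
    refine ⟨hc.mono hij, ?_⟩
    intro heq
    simp only at heq ⊢
    have hv := hc.val_lt h heq
    rcases hi : w.2 i with _ | _ <;> rcases hj : w.2 j with _ | _
    · rw [sval_false hi, sval_false hj] at hv
      rw [hh_false hi, hh_false hj]
      have : w.1 i ≤ w.1 j := by
        rw [Fin.le_def]; omega
      have := hc.mono this
      omega
    · rw [sval_false hi, sval_true hj] at hv
      omega
    · rw [hh_true hi, hh_false hj]
      omega
    · rw [sval_true hi, sval_true hj] at hv
      rw [hh_true hi, hh_true hj]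
      have : w.1 j ≤ w.1 i := by
        rw [Fin.le_def]; omega
      have := hc.mono this
      omega
  · rw [h]

lemma Compat.L_tau (hc : Compat w s) (hi : IsInvo w) (i : Fin n) :
    (s (w.1 i), hh w s (w.1 i)) = tau (s i, hh w s i) := by
  unfold tau
  simp only
  rcases h : w.2 i with _ | _
  · have h' : w.2 (w.1 i) = false := by rw [(hi i).2, h]
    rw [hh_false h, hh_false h', (hi i).1]
    rw [if_neg (by omega)]
    simp
  · have h' : w.2 (w.1 i) = true := by rw [(hi i).2, h]
    have hp := hc.pos_of_neg hi h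
    rw [hh_true h, hh_true h', (hi i).1]
    rw [if_pos (by omega)]
    simp

lemma Compat.mem_Om (hc : Compat w s) {r : ℕ} (hr : ∀ i, s i ≤ r) (i : Fin n) :
    (s i, hh w s i) ∈ Om r := by
  rw [LibTypeB.mem_Om]
  simp only
  have h1 := hr i
  have h2 := hr (w.1 i)
  rcases h : w.2 i with _ | _
  · rw [hh_false h]; omega
  · rw [hh_true h]
    refine ⟨h1, by omega, by omega, ?_⟩
    intro h0
    have := hc.2 i h0
    rw [h] at this
    exact absurd this (by simp)

/-- The multiplicity function. -/
def mult (w : Equiv.Perm (Fin n) × (Fin n → Bool)) (s : Fin n → ℕ) (x : ℕ × ℤ) : ℕ :=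
  (univ.filter (fun i => (s i, hh w s i) = x)).card

lemma Compat.mult_mem (hc : Compat w s) (hi : IsInvo w) {r : ℕ} (hr : ∀ i, s i ≤ r) :
    mult w s ∈ Inv (Om r) tau n := by
  rw [mem_Inv]
  refine ⟨⟨?_, ?_⟩, ?_⟩
  · unfold mult
    rw [← Finset.card_eq_sum_card_fiberwise (f := fun i => (s i, hh w s i))]
    · simp
    · intro i _
      exact hc.mem_Om hr i
  · intro x hx
    unfold mult at hx
    rw [Finset.card_ne_zero] at hx
    obtain ⟨i, hi'⟩ := hx
    rw [mem_filter] at hi'
    rw [← hi'.2]
    exact hc.mem_Om hr i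
  · intro x hx
    unfold mult
    apply Finset.card_nbij' w.1 w.1
    · intro i hi'
      simp only [coe_filter, mem_univ, true_and, Set.mem_ofPred_eq] at hi' ⊢
      rw [hc.L_tau hi, hi', tau_tau x hx]
    · intro i hi'
      simp only [coe_filter, mem_univ, true_and, Set.mem_ofPred_eq] at hi' ⊢
      rw [hc.L_tau hi, hi']
    · intro i _
      exact (hi i).1
    · intro i _
      exact (hi i).1

end forward

lemma mult_inj {n : ℕ} {w w' : Equiv.Perm (Fin n) × (Fin n → Bool)} {s s' : Fin n → ℕ}
    (hc : Compat w s) (hi : IsInvo w) (hc' : Compat w' s') (hi' : IsInvo w')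
    (h : mult w s = mult w' s') : w = w' ∧ s = s' := by
  have hL : (fun i => toLex (s i, hh w s i)) = (fun i => toLex (s' i, hh w' s' i)) := by
    apply mono_eq hc.L_mono hc'.L_mono
    intro x
    have := congrFun h (ofLex x)
    unfold mult at this
    exact this
  have hL' : ∀ i, s i = s' i ∧ hh w s i = hh w' s' i := by
    intro i
    have := congrFun hL i
    have h2 := congrArg ofLex this
    simp only [ofLex_toLex, Prod.mk.injEq] at h2
    exact h2
  have hs : s = s' := funext fun i => (hL' i).1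
  have he : w.2 = w'.2 := by
    funext i
    rw [Bool.eq_iff_iff, ← hc.hh_neg_iff hi i, ← hc'.hh_neg_iff hi' i, (hL' i).2]
  have hkey : ∀ i, toLex (s (w.1 i), sval w (w.1 i)) = toLex (s' (w'.1 i), sval w' (w'.1 i)) := by
    intro i
    have h1 : s (w.1 i) = s' (w'.1 i) := by
      have h2 := (hL' i).2
      have h3 := congrFun he i
      rcases hw : w.2 i with _ | _
      · rw [hh_false hw, hh_false (h3 ▸ hw)] at h2
        omega
      · rw [hh_true hw, hh_true (h3 ▸ hw)] at h2
        omega
    have h2 : sval w (w.1 i) = sval w' (w'.1 i) := by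
      unfold sval
      rw [(hi i).1, (hi i).2, (hi' i).1, (hi' i).2, he]
    rw [h1, h2]
  have hrange : Set.range (fun i => toLex (s i, sval w i)) =
      Set.range (fun i => toLex (s' i, sval w' i)) := by
    have h1 : Set.range (fun i => toLex (s i, sval w i)) =
        Set.range (fun i => toLex (s (w.1 i), sval w (w.1 i))) :=
      (w.1.surjective.range_comp (fun i => toLex (s i, sval w i))).symm
    have h2 : Set.range (fun i => toLex (s' i, sval w' i)) =
        Set.range (fun i => toLex (s' (w'.1 i), sval w' (w'.1 i))) :=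
      (w'.1.surjective.range_comp (fun i => toLex (s' i, sval w' i))).symm
    rw [h1, h2]
    congr 1
    funext i
    exact hkey i
  have hf := (hc.1.range_inj hc'.1).1 hrange
  have hp : w.1 = w'.1 := by
    ext i
    have h1 := hkey i
    have h2 := congrFun hf (w.1 i)
    rw [h2] at h1
    have := hc'.1.injective h1
    rw [this]
  exact ⟨Prod.ext hp he, hs⟩

end Pool.Agent.LibTypeB
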