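import Mathlib

set_option autoImplicit false

namespace Pool.Agent.LibTypeB

/-- Shift of a coefficient sequence. -/
def sh (v : ℕ → ℚ) : ℕ → ℚ
  | 0 => 0
  | k + 1 => v k

/-- Action of the first-order operator on gamma coefficients. -/
def Dop (N : ℕ) (g : ℕ → ℚ) : ℕ → ℚ :=
  fun k => (2 * (k : ℚ) + 1) * g k + sh (fun k => 4 * ((N : ℚ) - 2 * (k : ℚ)) * g k) k

/-- Action of multiplication by `(1 - X)^2` on gamma coefficients. -/
def Mop (g : ℕ → ℚ) : ℕ → ℚ := fun k => g k - sh (fun k => 4 * g k) k

/-- The gamma coefficients. -/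
def gam : ℕ → ℕ → ℚ
  | 0 => fun k => if k = 0 then 1 else 0
  | 1 => fun k => if k = 0 then 1 else 0
  | n + 2 => fun k => (2 * Dop (n + 1) (gam (n + 1)) k + Dop (n + 1) (Dop n (gam n)) k +
      (2 * (n : ℚ) + 1) * Mop (gam n) k) / (2 * ((n : ℚ) + 2))

lemma gam_eq (n k : ℕ) : gam (n + 2) k = (2 * Dop (n + 1) (gam (n + 1)) k +
    Dop (n + 1) (Dop n (gam n)) k + (2 * (n : ℚ) + 1) * Mop (gam n) k) / (2 * ((n : ℚ) + 2)) := by
  simp only [gam]

lemma gam_rec0 (n : ℕ) : ((n : ℚ) + 2) * gam (n + 2) 0 =
    gam (n + 1) 0 + ((n : ℚ) + 1) * gam n 0 := by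
  rw [gam_eq]
  have h : (n : ℚ) + 2 ≠ 0 := by positivity
  simp only [Dop, Mop, sh]
  push_cast
  field_simp
  ring

lemma gam_rec1 (n : ℕ) : ((n : ℚ) + 2) * gam (n + 2) 1 =
    3 * gam (n + 1) 1 + 4 * ((n : ℚ) + 1) * gam (n + 1) 0 + ((n : ℚ) + 5) * gam n 1 +
      4 * (n : ℚ) * gam n 0 := by
  rw [gam_eq]
  have h : (n : ℚ) + 2 ≠ 0 := by positivity
  simp only [Dop, Mop, sh]
  push_cast
  field_simp
  ring

lemma gam_rec2 (n k : ℕ) : ((n : ℚ) + 2) * gam (n + 2) (k + 2) =
    (2 * (k : ℚ) + 5) * gam (n + 1) (k + 2) +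
    4 * ((n : ℚ) - 2 * (k : ℚ) - 1) * gam (n + 1) (k + 1) +
    (2 * ((k : ℚ) + 2) ^ 2 + 2 * ((k : ℚ) + 2) + (n : ℚ) + 1) * gam n (k + 2) +
    (4 * ((n : ℚ) + 2) * (2 * (k : ℚ) + 3) - 16 * ((k : ℚ) + 2) ^ 2 + 4 * ((k : ℚ) + 2) + 4) *
      gam n (k + 1) +
    8 * ((n : ℚ) - 2 * (k : ℚ)) * ((n : ℚ) - 2 * (k : ℚ) - 1) * gam n k := by
  rw [gam_eq]
  have h : (n : ℚ) + 2 ≠ 0 := by positivity
  simp only [Dop, Mop, sh]
  push_cast
  field_simp
  ring

lemma Dop_supp {N : ℕ} {g : ℕ → ℚ} (hg : ∀ k, N < 2 * k → g k = 0) :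
    ∀ k, N + 1 < 2 * k → Dop N g k = 0 := by
  intro k hk
  unfold Dop
  rw [hg k (by omega), mul_zero, zero_add]
  cases k with
  | zero => rfl
  | succ k =>
    simp only [sh]
    rcases Nat.lt_or_ge N (2 * k) with h | h
    · rw [hg k h, mul_zero]
    · have : N = 2 * k := by omega
      rw [this]
      push_cast
      ring

lemma Mop_supp {N : ℕ} {g : ℕ → ℚ} (hg : ∀ k, N < 2 * k → g k = 0) :
    ∀ k, N + 2 < 2 * k → Mop g k = 0 := by
  intro k hk
  unfold Mop
  rw [hg k (by omega), zero_sub]
  cases k with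
  | zero => simp [sh]
  | succ k =>
    simp only [sh]
    rw [hg k (by omega), mul_zero, neg_zero]

lemma gam_supp_aux (n : ℕ) :
    (∀ k, n < 2 * k → gam n k = 0) ∧ (∀ k, n + 1 < 2 * k → gam (n + 1) k = 0) := by
  induction n with
  | zero =>
    constructor
    · intro k hk
      simp only [gam]
      rw [if_neg (by omega)]
    · intro k hk
      simp only [gam]
      rw [if_neg (by omega)]
  | succ n ih =>
    refine ⟨ih.2, ?_⟩
    intro k hk
    rw [gam_eq, Dop_supp ih.2 k hk, Dop_supp (Dop_supp ih.1) k hk, Mop_supp ih.1 k hk]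
    simp

lemma gam_supp (n k : ℕ) (h : n < 2 * k) : gam n k = 0 := (gam_supp_aux n).1 k h

/-- Positivity of the gamma coefficients. -/
theorem gam_nonneg (n : ℕ) : ∀ k, 0 ≤ gam n k := by
  induction n using Nat.strong_induction_on with
  | _ n ih =>
  match n, ih with
  | 0, _ =>
    intro k
    simp only [gam]
    split_ifs <;> norm_num
  | 1, _ =>
    intro k
    simp only [gam]
    split_ifs <;> norm_num
  | n + 2, ih =>
    have i1 : ∀ k, 0 ≤ gam (n + 1) k := ih (n + 1) (by omega)
    have i0 : ∀ k, 0 ≤ gam n k := ih n (by omega)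
    have hn : (0 : ℚ) ≤ n := Nat.cast_nonneg n
    have hpos : (0 : ℚ) < (n : ℚ) + 2 := by positivity
    intro k
    match k with
    | 0 =>
      have h := gam_rec0 n
      have : 0 ≤ ((n : ℚ) + 2) * gam (n + 2) 0 := by
        rw [h]
        have := i1 0
        have := mul_nonneg (by positivity : (0 : ℚ) ≤ (n : ℚ) + 1) (i0 0)
        linarith
      exact nonneg_of_mul_nonneg_right this hpos
    | 1 =>
      have h := gam_rec1 n
      have : 0 ≤ ((n : ℚ) + 2) * gam (n + 2) 1 := by
        rw [h]
        have a1 := i1 1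
        have a2 := mul_nonneg (by positivity : (0 : ℚ) ≤ 4 * ((n : ℚ) + 1)) (i1 0)
        have a3 := mul_nonneg (by positivity : (0 : ℚ) ≤ (n : ℚ) + 5) (i0 1)
        have a4 := mul_nonneg (by positivity : (0 : ℚ) ≤ 4 * (n : ℚ)) (i0 0)
        linarith
      exact nonneg_of_mul_nonneg_right this hpos
    | k + 2 =>
      have h := gam_rec2 n k
      have hk : (0 : ℚ) ≤ k := Nat.cast_nonneg k
      rcases Nat.lt_trichotomy (n + 2) (2 * (k + 2)) with hlt | heq | hgt
      · rw [gam_supp _ _ hlt]
      · -- the top coefficient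
        have hn' : n = 2 * k + 2 := by omega
        subst hn'
        rw [gam_supp (2 * k + 2 + 1) (k + 2) (by omega), gam_supp (2 * k + 2) (k + 2) (by omega)]
          at h
        push_cast at h hpos hn
        have claim1 : gam (2 * k + 2) (k + 1) ≤ gam (2 * k + 2 + 1) (k + 1) := by
          match k with
          | 0 =>
            have r := gam_rec1 1
            norm_num at r
            have b1 := ih 2 (by omega) 0
            have b2 := ih 1 (by omega) 1
            have b3 := ih 1 (by omega) 0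
            norm_num
            linarith
          | k + 1 =>
            have r := gam_rec2 (2 * k + 3) k
            have e1 : 2 * k + 3 + 2 = 2 * (k + 1) + 2 + 1 := by ring
            have e2 : 2 * k + 3 + 1 = 2 * (k + 1) + 2 := by ring
            rw [e1, e2] at r
            have b0 := ih (2 * (k + 1) + 2) (by omega) (k + 1)
            have b1 := ih (2 * k + 3) (by omega) (k + 2)
            have b2 := ih (2 * k + 3) (by omega) (k + 1)
            have b3 := ih (2 * k + 3) (by omega) k
            push_cast at r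
            have hk' : (0 : ℚ) ≤ k := Nat.cast_nonneg k
            have c1 : 0 ≤ 4 * ((2 * (k : ℚ) + 3) - 2 * (k : ℚ) - 1) *
                gam (2 * (k + 1) + 2) (k + 1) :=
              mul_nonneg (by linarith) b0
            have c2 : 0 ≤ (2 * ((k : ℚ) + 2) ^ 2 + 2 * ((k : ℚ) + 2) + (2 * (k : ℚ) + 3) + 1) *
                gam (2 * k + 3) (k + 2) :=
              mul_nonneg (by positivity) b1
            have c3 : 0 ≤ (4 * ((2 * (k : ℚ) + 3) + 2) * (2 * (k : ℚ) + 3) -
                16 * ((k : ℚ) + 2) ^ 2 + 4 * ((k : ℚ) + 2) + 4) * gam (2 * k + 3) (k + 1) :=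
              mul_nonneg (by nlinarith) b2
            have c4 : 0 ≤ 8 * ((2 * (k : ℚ) + 3) - 2 * (k : ℚ)) *
                ((2 * (k : ℚ) + 3) - 2 * (k : ℚ) - 1) * gam (2 * k + 3) k :=
              mul_nonneg (by ring_nf; norm_num) b3
            have hp : (0 : ℚ) < 2 * (k : ℚ) + 5 := by positivity
            have c5 : (2 * (k : ℚ) + 5) * gam (2 * (k + 1) + 2) (k + 1 + 1) ≤
                (2 * (k : ℚ) + 5) * gam (2 * (k + 1) + 2 + 1) (k + 1 + 1) := by
              have e3 : (2 * (k : ℚ) + 3 + 2) = 2 * (k : ℚ) + 5 := by ring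
              rw [e3] at r
              have e4 : k + 1 + 1 = k + 2 := rfl
              rw [e4]
              linarith
            exact le_of_mul_le_mul_left c5 hp
        have claim2 : (k : ℚ) * gam (2 * k + 2) (k + 1) ≤ 4 * gam (2 * k + 2) k := by
          match k with
          | 0 =>
            have := ih 2 (by omega) 0
            norm_num
            linarith
          | 1 =>
            -- n = 4
            have r2 := gam_rec2 2 0
            have r1 := gam_rec1 2
            rw [gam_supp (2 + 1) (0 + 2) (by omega), gam_supp 2 (0 + 2) (by omega)] at r2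
            norm_num at r1 r2
            have b1 := ih 3 (by omega) 1
            have b2 := ih 2 (by omega) 1
            have b3 := ih 2 (by omega) 0
            have b4 := ih 3 (by omega) 0
            norm_num
            linarith
          | k + 2 =>
            -- top and next coefficients at level 2 (k + 3)
            have r2 := gam_rec2 (2 * k + 4) (k + 1)
            have r1 := gam_rec2 (2 * k + 4) k
            rw [gam_supp (2 * k + 4 + 1) (k + 1 + 2) (by omega),
              gam_supp (2 * k + 4) (k + 1 + 2) (by omega)] at r2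
            have b1 := ih (2 * k + 4 + 1) (by omega) (k + 2)
            have b2 := ih (2 * k + 4 + 1) (by omega) (k + 1)
            have b3 := ih (2 * k + 4) (by omega) (k + 2)
            have b4 := ih (2 * k + 4) (by omega) (k + 1)
            have b5 := ih (2 * k + 4) (by omega) k
            have hk' : (0 : ℚ) ≤ k := Nat.cast_nonneg k
            push_cast at r1 r2
            have e0 : 2 * (k + 2) + 2 = 2 * k + 4 + 2 := by ring
            have e1 : k + 2 + 1 = k + 1 + 2 := by ring
            rw [e0, e1]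
            set T := gam (2 * k + 4 + 2) (k + 1 + 2) with hT
            set U := gam (2 * k + 4 + 2) (k + 2) with hU
            set a := gam (2 * k + 4 + 1) (k + 2) with ha
            set b := gam (2 * k + 4 + 1) (k + 1) with hb
            set c := gam (2 * k + 4) (k + 2) with hc
            set d := gam (2 * k + 4) (k + 1) with hd
            set e := gam (2 * k + 4) k with he
            have g2 : (2 * (k : ℚ) + 4 + 2) * T = 4 * a - 4 * (k + 2) * c + 16 * d := by
              linear_combination r2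
            have g1 : (2 * (k : ℚ) + 4 + 2) * U = (2 * (k : ℚ) + 5) * a + 12 * b +
                (2 * ((k : ℚ) + 2) ^ 2 + 2 * ((k : ℚ) + 2) + (2 * k + 4) + 1) * c +
                (12 * (k : ℚ) + 20) * d + 96 * e := by
              linear_combination r1
            have hp : (0 : ℚ) < 2 * (k : ℚ) + 4 + 2 := by positivity
            have key : (2 * (k : ℚ) + 4 + 2) * (((k : ℚ) + 2) * T) ≤
                (2 * (k : ℚ) + 4 + 2) * (4 * U) := by
              have s1 : (2 * (k : ℚ) + 4 + 2) * (((k : ℚ) + 2) * T) =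
                  ((k : ℚ) + 2) * (4 * a - 4 * (k + 2) * c + 16 * d) := by
                rw [← g2]; ring
              have s2 : (2 * (k : ℚ) + 4 + 2) * (4 * U) = 4 * ((2 * (k : ℚ) + 5) * a + 12 * b +
                (2 * ((k : ℚ) + 2) ^ 2 + 2 * ((k : ℚ) + 2) + (2 * k + 4) + 1) * c +
                (12 * (k : ℚ) + 20) * d + 96 * e) := by
                rw [← g1]; ring
              rw [s1, s2]
              have t1 : 0 ≤ (4 * (k : ℚ) + 12) * a := mul_nonneg (by positivity) b1
              have t2 : 0 ≤ 48 * b := mul_nonneg (by norm_num) b2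
              have t3 : 0 ≤ (4 * (2 * ((k : ℚ) + 2) ^ 2 + 2 * ((k : ℚ) + 2) + (2 * k + 4) + 1) +
                  4 * ((k : ℚ) + 2) ^ 2) * c := mul_nonneg (by positivity) b3
              have t4 : 0 ≤ (32 * (k : ℚ) + 48) * d := mul_nonneg (by positivity) b4
              have t5 : 0 ≤ 384 * e := mul_nonneg (by norm_num) b5
              nlinarith
            have := le_of_mul_le_mul_left key hp
            push_cast
            linarith
        have hfin : 0 ≤ (2 * (k : ℚ) + 2 + 2) * gam (2 * k + 2 + 2) (k + 2) := by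
          rw [h]
          have := i0 (k + 1)
          nlinarith
        exact nonneg_of_mul_nonneg_right hfin (by positivity)
      · have hq : 2 * ((k : ℚ) + 2) + 1 ≤ (n : ℚ) + 2 := by
          have : 2 * (k + 2) + 1 ≤ n + 2 := hgt
          exact_mod_cast this
        have : 0 ≤ ((n : ℚ) + 2) * gam (n + 2) (k + 2) := by
          rw [h]
          have c1 : 0 ≤ (2 * (k : ℚ) + 5) * gam (n + 1) (k + 2) :=
            mul_nonneg (by positivity) (i1 _)
          have c2 : 0 ≤ 4 * ((n : ℚ) - 2 * (k : ℚ) - 1) * gam (n + 1) (k + 1) :=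
            mul_nonneg (by linarith) (i1 _)
          have c3 : 0 ≤ (2 * ((k : ℚ) + 2) ^ 2 + 2 * ((k : ℚ) + 2) + (n : ℚ) + 1) *
              gam n (k + 2) := mul_nonneg (by positivity) (i0 _)
          have c4 : 0 ≤ (4 * ((n : ℚ) + 2) * (2 * (k : ℚ) + 3) - 16 * ((k : ℚ) + 2) ^ 2 +
              4 * ((k : ℚ) + 2) + 4) * gam n (k + 1) := mul_nonneg (by nlinarith) (i0 _)
          have c5 : 0 ≤ 8 * ((n : ℚ) - 2 * (k : ℚ)) * ((n : ℚ) - 2 * (k : ℚ) - 1) * gam n k :=
            mul_nonneg (mul_nonneg (by linarith) (by linarith)) (i0 _)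
          linarith
        exact nonneg_of_mul_nonneg_right this hpos

end Pool.Agent.LibTypeB
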