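import Mathlib
import Pool.Agent.LibTypeB.Bij

set_option autoImplicit false

namespace Pool.Agent.LibTypeB

open Finset

/-- A sorted enumeration with prescribed multiplicities. -/
lemma exists_sorted {n r : ℕ} {M : ℕ × ℤ → ℕ} (hM : M ∈ Inv (Om r) tau n) :
    ∃ L : Fin n → ℕ ×ₗ ℤ, Monotone L ∧
      ∀ x : ℕ × ℤ, (univ.filter (fun i => L i = toLex x)).card = M x := by
  rw [mem_Inv] at hM
  obtain ⟨⟨hsum, hsupp⟩, -⟩ := hM
  have hcard : Fintype.card (Fin n) = Fintype.card (Σ x : Om r, Fin (M x)) := by
    rw [Fintype.card_fin, Fintype.card_sigma]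
    simp only [Fintype.card_fin]
    rw [Finset.sum_coe_sort (Om r) M, hsum]
  let e : Fin n ≃ (Σ x : Om r, Fin (M x)) := Fintype.equivOfCardEq hcard
  let L0 : Fin n → ℕ ×ₗ ℤ := fun i => toLex ((e i).1 : ℕ × ℤ)
  refine ⟨L0 ∘ Tuple.sort L0, Tuple.monotone_sort L0, ?_⟩
  intro x
  have h1 : (univ.filter (fun i => (L0 ∘ Tuple.sort L0) i = toLex x)).card =
      (univ.filter (fun i => L0 i = toLex x)).card := by
    apply Finset.card_nbij' (Tuple.sort L0) (Tuple.sort L0).symm
    · intro i hi
      simpa using hi
    · intro i hi
      simpa using hi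
    · intro i _
      simp
    · intro i _
      simp
  rw [h1]
  by_cases hx : x ∈ Om r
  · have h2 : (univ.filter (fun i => L0 i = toLex x)).card =
        (univ.filter (fun t : (Σ x : Om r, Fin (M x)) => t.1 = ⟨x, hx⟩)).card := by
      apply Finset.card_nbij' e e.symm
      · intro i hi
        simp only [coe_filter, mem_univ, true_and, Set.mem_ofPred_eq, L0] at hi ⊢
        apply Subtype.ext
        exact toLex.injective hi
      · intro t ht
        simp only [coe_filter, mem_univ, true_and, Set.mem_ofPred_eq, L0] at ht ⊢
        rw [Equiv.apply_symm_apply, ht]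
      · intro i _
        simp
      · intro i _
        simp
    rw [h2, ← Fintype.card_subtype, Fintype.card_congr (Equiv.sigmaSubtype (⟨x, hx⟩ : Om r)),
      Fintype.card_fin]
  · have h3 : M x = 0 := by
      by_contra hne
      exact hx (hsupp x hne)
    rw [h3, Finset.card_eq_zero, Finset.filter_eq_empty_iff]
    intro i _ hi
    have h4 : ((e i).1 : ℕ × ℤ) = x := toLex.injective hi
    exact hx (h4 ▸ (e i).1.2)

lemma exists_pair {n r : ℕ} {M : ℕ × ℤ → ℕ} (hM : M ∈ Inv (Om r) tau n) :
    ∃ (w : Equiv.Perm (Fin n) × (Fin n → Bool)) (s : Fin n → ℕ),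
      Compat w s ∧ IsInvo w ∧ (∀ i, s i ≤ r) ∧ mult w s = M := by
  obtain ⟨L, hLm, hLc⟩ := exists_sorted hM
  rw [mem_Inv] at hM
  obtain ⟨⟨hsum, hsupp⟩, hinvM⟩ := hM
  let s : Fin n → ℕ := fun i => (ofLex (L i)).1
  let h : Fin n → ℤ := fun i => (ofLex (L i)).2
  have hLsh : ∀ i, L i = toLex (s i, h i) := fun i => rfl
  have hOm : ∀ i, (s i, h i) ∈ Om r := by
    intro i
    apply hsupp
    rw [← hLc, Finset.card_ne_zero]
    exact ⟨i, by simp [hLsh]⟩
  have hcount : ∀ x : ℕ × ℤ, (univ.filter (fun i => (s i, h i) = x)).card = M x := by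
    intro x
    rw [← hLc x]
    congr 1
  have hsm : ∀ i j, i ≤ j → s i ≤ s j := by
    intro i j hij
    have := hLm hij
    rw [hLsh, hLsh, Prod.Lex.toLex_le_toLex'] at this
    exact this.1
  have hhm : ∀ i j, i ≤ j → s i = s j → h i ≤ h j := by
    intro i j hij hs
    have := hLm hij
    rw [hLsh, hLsh, Prod.Lex.toLex_le_toLex'] at this
    exact this.2 hs
  have h0 : ∀ i, s i = 0 → 0 ≤ h i := by
    intro i hi
    have := hOm i
    rw [mem_Om] at this
    exact this.2.2.2 hi
  let key : Fin n → ℕ ×ₗ ℤ := fun i =>
    toLex ((h i).natAbs, (if h i < 0 then (-1 : ℤ) else 1) * (((i : ℕ) : ℤ) + 1))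
  have hkey_inj : Function.Injective key := by
    intro i j hij
    have h1 := toLex.injective hij
    simp only [Prod.mk.injEq] at h1
    have h2 := h1.2
    apply Fin.ext
    split_ifs at h2 <;> omega
  let σ : Equiv.Perm (Fin n) := Tuple.sort key
  have hf : StrictMono (fun i => key (σ i)) :=
    (Tuple.monotone_sort key).strictMono_of_injective (hkey_inj.comp σ.injective)
  -- the reflected sequence is again sorted
  have hL' : (fun i => toLex (tau (s (σ i), h (σ i)))) = L := by
    apply mono_eq _ hLm
    · intro x
      have e1 : (univ.filter (fun i => toLex (tau (s (σ i), h (σ i))) = x)).card =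
          (univ.filter (fun i => tau (s i, h i) = ofLex x)).card := by
        apply Finset.card_nbij' σ σ.symm
        · intro i hi
          simp only [coe_filter, mem_univ, true_and, Set.mem_ofPred_eq] at hi ⊢
          rw [← hi]; rfl
        · intro i hi
          simp only [coe_filter, mem_univ, true_and, Set.mem_ofPred_eq] at hi ⊢
          rw [Equiv.apply_symm_apply, hi]; rfl
        · intro i _
          simp
        · intro i _
          simp
      have e2 : (univ.filter (fun i => L i = x)).card = M (ofLex x) := by
        rw [← hLc (ofLex x)]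
        rfl
      rw [e1, e2]
      by_cases hx : ofLex x ∈ Om r
      · rw [← hinvM _ hx, ← hcount]
        congr 1
        ext i
        simp only [mem_filter, mem_univ, true_and]
        constructor
        · intro h1
          rw [← h1, tau_tau _ (hOm i)]
        · intro h1
          rw [h1, tau_tau _ hx]
      · have h3 : M (ofLex x) = 0 := by
          by_contra hne
          exact hx (hsupp _ hne)
        rw [h3, Finset.card_eq_zero, Finset.filter_eq_empty_iff]
        intro i _ hi
        apply hx
        rw [← hi]
        exact tau_mem _ (hOm i)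
    · intro i j hij
      rcases hij.lt_or_eq with hlt | heq
      · have h1 := hf hlt
        simp only [key] at h1
        rw [Prod.Lex.toLex_lt_toLex'] at h1
        simp only at h1
        simp only [tau]
        rw [Prod.Lex.toLex_le_toLex']
        simp only
        refine ⟨h1.1, ?_⟩
        intro h2
        have h3 := h1.2 h2
        by_cases hi : h (σ i) < 0 <;> by_cases hj : h (σ j) < 0
        · rw [if_pos hi, if_pos hj] at h3 ⊢
          have : s (σ j) ≤ s (σ i) := hsm _ _ (by rw [Fin.le_def]; omega)
          omega
        · rw [if_pos hi, if_neg hj]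
          omega
        · rw [if_neg hi, if_pos hj] at h3
          omega
        · rw [if_neg hi, if_neg hj] at h3 ⊢
          have : s (σ i) ≤ s (σ j) := hsm _ _ (by rw [Fin.le_def]; omega)
          omega
      · rw [heq]
  have hτ : ∀ i, (s i, h i) = tau (s (σ i), h (σ i)) := by
    intro i
    have := congrFun hL' i
    rw [hLsh] at this
    exact (toLex.injective this).symm
  let π : Equiv.Perm (Fin n) := σ.symm
  have hτ' : ∀ i, (s (π i), h (π i)) = tau (s i, h i) := by
    intro i
    rw [hτ (π i)]
    simp [π]
  have hs' : ∀ i, s (π i) = (h i).natAbs := fun i => congrArg Prod.fst (hτ' i)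
  have hh' : ∀ i, h (π i) = if h i < 0 then -(s i : ℤ) else s i :=
    fun i => congrArg Prod.snd (hτ' i)
  have hneg : ∀ i, h (π i) < 0 ↔ h i < 0 := by
    intro i
    rw [hh' i]
    have := h0 i
    split_ifs with hi <;> omega
  have hnat : ∀ i, (h (π i)).natAbs = s i := by
    intro i
    rw [hh' i]
    split_ifs with hi <;> omega
  have hlt : ∀ i j, π i < π j ↔ key i < key j := by
    intro i j
    have : ∀ i, key i = (fun i => key (σ i)) (π i) := by
      intro i; simp [π]
    rw [this i, this j, hf.lt_iff_lt]
  have hg : StrictMono (fun i => key (π i)) := by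
    intro i j hij
    simp only [key]
    rw [Prod.Lex.toLex_lt_toLex']
    simp only
    rw [hnat, hnat]
    refine ⟨hsm i j hij.le, ?_⟩
    intro hs
    have hhij := hhm i j hij.le hs
    have hij' : (i : ℕ) < (j : ℕ) := hij
    have k1 := hlt i j
    have k2 := hlt j i
    rw [Fin.lt_def] at k1 k2
    simp only [key] at k1 k2
    rw [Prod.Lex.toLex_lt_toLex'] at k1 k2
    simp only at k1 k2
    by_cases hi : h i < 0 <;> by_cases hj : h j < 0
    · rw [if_pos ((hneg i).2 hi), if_pos ((hneg j).2 hj)]
      rw [if_pos hi, if_pos hj] at k1 k2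
      have : ((π j : Fin n) : ℕ) < ((π i : Fin n) : ℕ) := by
        rw [k2]
        omega
      omega
    · rw [if_pos ((hneg i).2 hi), if_neg (by rw [hneg j]; exact hj)]
      omega
    · omega
    · rw [if_neg (by rw [hneg i]; exact hi), if_neg (by rw [hneg j]; exact hj)]
      rw [if_neg hi, if_neg hj] at k1 k2
      have : ((π i : Fin n) : ℕ) < ((π j : Fin n) : ℕ) := by
        rw [k1]
        omega
      omega
  have hπσ : ∀ i, π i = σ i := by
    have hrange : Set.range (fun i => key (π i)) = Set.range (fun i => key (σ i)) := by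
      have h1 : Set.range (fun i => key (π i)) = Set.range key := π.surjective.range_comp key
      have h2 : Set.range (fun i => key (σ i)) = Set.range key := σ.surjective.range_comp key
      rw [h1, h2]
    have := (hg.range_inj hf).1 hrange
    intro i
    exact hkey_inj (congrFun this i)
  have hππ : ∀ i, π (π i) = i := by
    intro i
    rw [hπσ (π i)]
    simp [π]
  refine ⟨(π, fun i => decide (h i < 0)), s, ⟨?_, ?_⟩, ?_, ?_, ?_⟩
  · have : (fun i => toLex (s i, sval (π, fun i => decide (h i < 0)) i)) =
        (fun i => key (π i)) := by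
      funext i
      simp only [key, sval, hnat]
      by_cases hi : h i < 0
      · simp [hi, (hneg i).2 hi]
      · have : ¬ h (π i) < 0 := by rw [hneg i]; exact hi
        simp [hi, this]
    rw [this]
    exact hg
  · intro i hi
    have := h0 i hi
    simp only [decide_eq_false_iff_not]
    omega
  · intro i
    refine ⟨hππ i, ?_⟩
    simp only [decide_eq_decide]
    exact hneg i
  · intro i
    have := hOm i
    rw [mem_Om] at this
    exact this.1
  · funext x
    rw [← hcount x]
    unfold mult
    congr 1
    ext i
    simp only [mem_filter, mem_univ, true_and]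
    have : hh (π, fun i => decide (h i < 0)) s i = h i := by
      unfold hh
      simp only [decide_eq_true_eq]
      rw [hs' i]
      split_ifs <;> omega
    rw [this]

end Pool.Agent.LibTypeB
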