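import Mathlib
import Pool.Agent.LibTypeB.Bij
import Pool.Agent.LibTypeB.Surj

set_option autoImplicit false

namespace Pool.Agent.LibTypeB

open Finset

/-- Indicator as a natural number. -/
def ind (b : Bool) : ℕ := if b then 1 else 0

/-- Local conditions with bound `r`. -/
def LocC (m : ℕ) (D : ℕ → Bool) (s : Fin (m + 1) → ℕ) (r : ℕ) : Prop :=
  ind (D 0) ≤ s 0 ∧ (∀ i : Fin m, s i.castSucc + ind (D ((i : ℕ) + 1)) ≤ s i.succ) ∧
    s (Fin.last m) ≤ r

lemma LocC_mono {m : ℕ} {D : ℕ → Bool} {s : Fin (m + 1) → ℕ} {r : ℕ} (h : LocC m D s r) :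
    Monotone s := by
  rw [Fin.monotone_iff_le_succ]
  intro i
  have := h.2.1 i
  omega

lemma LocC_le {m : ℕ} {D : ℕ → Bool} {s : Fin (m + 1) → ℕ} {r : ℕ} (h : LocC m D s r)
    (i : Fin (m + 1)) : s i ≤ r :=
  (LocC_mono h (Fin.le_last i)).trans h.2.2

lemma LocC_succ (m : ℕ) (D : ℕ → Bool) (s : Fin (m + 2) → ℕ) (r : ℕ) :
    LocC (m + 1) D s r ↔ (s (Fin.last (m + 1)) ≤ r ∧ ind (D (m + 1)) ≤ s (Fin.last (m + 1)) ∧
      LocC m D (Fin.init s) (s (Fin.last (m + 1)) - ind (D (m + 1)))) := by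
  unfold LocC
  rw [Fin.forall_fin_succ']
  have e1 : (Fin.init s : Fin (m + 1) → ℕ) 0 = s 0 := rfl
  have e2 : (Fin.init s : Fin (m + 1) → ℕ) (Fin.last m) = s (Fin.last m).castSucc := rfl
  have e3 : ∀ i : Fin m, (Fin.init s : Fin (m + 1) → ℕ) i.castSucc = s i.castSucc.castSucc :=
    fun i => rfl
  have e4 : ∀ i : Fin m, (Fin.init s : Fin (m + 1) → ℕ) i.succ = s i.castSucc.succ := by
    intro i; rfl
  have e5 : (Fin.last m).succ = Fin.last (m + 1) := rfl
  simp only [e1, e2, e3, e4, e5, Fin.val_castSucc, Fin.val_last]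
  constructor
  · rintro ⟨h1, ⟨h2, h3⟩, h4⟩
    refine ⟨h4, by omega, h1, h2, by omega⟩
  · rintro ⟨h1, h2, h3, h4, h5⟩
    exact ⟨h3, ⟨h4, by omega⟩, h1⟩

noncomputable instance (m : ℕ) (D : ℕ → Bool) (s : Fin (m + 1) → ℕ) (r : ℕ) :
    Decidable (LocC m D s r) := Classical.propDecidable _

/-- The sequences satisfying the local conditions. -/
noncomputable def Sq (m : ℕ) (D : ℕ → Bool) (r : ℕ) : Finset (Fin (m + 1) → ℕ) :=
  (Fintype.piFinset fun _ : Fin (m + 1) => range (r + 1)).filter (fun s => LocC m D s r)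

lemma mem_Sq {m : ℕ} {D : ℕ → Bool} {r : ℕ} {s : Fin (m + 1) → ℕ} :
    s ∈ Sq m D r ↔ LocC m D s r := by
  unfold Sq
  rw [mem_filter, Fintype.mem_piFinset]
  constructor
  · exact fun h => h.2
  · intro h
    refine ⟨fun i => ?_, h⟩
    rw [mem_range]
    have := LocC_le h i
    omega

lemma card_Sq_zero (D : ℕ → Bool) (r : ℕ) :
    (Sq 0 D r).card = ∑ t ∈ range (r + 1), (if ind (D 0) ≤ t then 1 else 0) := by
  rw [← Finset.card_filter]
  apply Finset.card_nbij' (fun s => s 0) (fun t _ => t)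
  · intro s hs
    rw [mem_coe, mem_Sq] at hs
    simp only [coe_filter, mem_range, Set.mem_ofPred_eq]
    have h1 := hs.1
    have h2 := LocC_le hs 0
    omega
  · intro t ht
    simp only [coe_filter, mem_range, Set.mem_ofPred_eq] at ht
    rw [mem_coe, mem_Sq]
    refine ⟨ht.2, ?_, ?_⟩
    · intro i; exact i.elim0
    · simp only; omega
  · intro s _
    funext i
    have : i = 0 := Fin.fin_one_eq_zero i
    rw [this]
  · intro t _
    rfl

lemma card_Sq_succ (m : ℕ) (D : ℕ → Bool) (r : ℕ) :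
    (Sq (m + 1) D r).card = ∑ t ∈ range (r + 1),
      (if ind (D (m + 1)) ≤ t then (Sq m D (t - ind (D (m + 1)))).card else 0) := by
  rw [Finset.card_eq_sum_card_fiberwise (f := fun s => s (Fin.last (m + 1))) (t := range (r + 1))]
  · apply Finset.sum_congr rfl
    intro t ht
    rw [mem_range] at ht
    by_cases h : ind (D (m + 1)) ≤ t
    · rw [if_pos h]
      apply Finset.card_nbij' (fun s => Fin.init s) (fun s => Fin.snoc (α := fun _ => ℕ) s t)
      · intro s hs
        simp only [coe_filter, Set.mem_ofPred_eq] at hs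
        rw [mem_Sq, LocC_succ, hs.2] at hs
        rw [mem_coe, mem_Sq]
        exact hs.1.2.2
      · intro s hs
        rw [mem_coe, mem_Sq] at hs
        simp only [coe_filter, Set.mem_ofPred_eq]
        rw [mem_Sq, LocC_succ]
        rw [Fin.snoc_last, Fin.init_snoc]
        exact ⟨⟨by omega, h, hs⟩, rfl⟩
      · intro s hs
        simp only [coe_filter, Set.mem_ofPred_eq] at hs
        simp only
        rw [← hs.2, Fin.snoc_init_self]
      · intro s _
        simp only
        rw [Fin.init_snoc]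
    · rw [if_neg h, Finset.card_eq_zero, Finset.filter_eq_empty_iff]
      intro s hs hst
      rw [mem_Sq, LocC_succ, hst] at hs
      exact h hs.2.1
  · intro s hs
    rw [mem_coe, mem_Sq] at hs
    simp only [coe_range, Set.mem_Iio]
    have := hs.2.2
    omega

open PowerSeries in
lemma one_sub_mul_partial (a : ℕ → ℚ) :
    (1 - X : ℚ⟦X⟧) * PowerSeries.mk (fun r => ∑ t ∈ range (r + 1), a t) = PowerSeries.mk a := by
  ext n
  rw [sub_mul, one_mul, map_sub, coeff_mk, coeff_mk]
  cases n with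
  | zero => simp
  | succ n =>
    rw [coeff_succ_X_mul, coeff_mk, Finset.sum_range_succ _ (n + 1)]
    ring

open PowerSeries in
lemma mk_shift (b : ℕ → ℚ) (k : ℕ) :
    PowerSeries.mk (fun t => if k ≤ t then b (t - k) else 0) = X ^ k * PowerSeries.mk b := by
  ext n
  rw [coeff_mk, coeff_X_pow_mul']
  simp only [coeff_mk]

open PowerSeries in
theorem seq_series (m : ℕ) (D : ℕ → Bool) :
    (1 - X : ℚ⟦X⟧) ^ (m + 2) * PowerSeries.mk (fun r => ((Sq m D r).card : ℚ)) =
      X ^ (∑ i ∈ range (m + 1), ind (D i)) := by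
  induction m with
  | zero =>
    have h1 : PowerSeries.mk (fun r => ((Sq 0 D r).card : ℚ)) =
        PowerSeries.mk (fun r => ∑ t ∈ range (r + 1),
          (if ind (D 0) ≤ t then (fun _ => (1 : ℚ)) (t - ind (D 0)) else 0)) := by
      congr 1
      funext r
      rw [card_Sq_zero]
      push_cast
      rfl
    rw [h1, pow_succ, pow_succ, pow_zero, one_mul, mul_assoc, one_sub_mul_partial,
      mk_shift (fun _ => (1 : ℚ)) (ind (D 0))]
    have h2 : (1 - X : ℚ⟦X⟧) * PowerSeries.mk (fun _ => (1 : ℚ)) = 1 := by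
      have h3 : PowerSeries.mk (fun _ => (1 : ℚ)) = PowerSeries.mk (fun r => ∑ t ∈ range (r + 1),
          (if t = 0 then (1 : ℚ) else 0)) := by
        congr 1
        funext r
        rw [Finset.sum_ite_eq']
        simp
      rw [h3, one_sub_mul_partial]
      ext n
      rw [coeff_mk, coeff_one]
    rw [mul_left_comm, h2]
    simp
  | succ m ih =>
    have h1 : PowerSeries.mk (fun r => ((Sq (m + 1) D r).card : ℚ)) =
        PowerSeries.mk (fun r => ∑ t ∈ range (r + 1),
          (if ind (D (m + 1)) ≤ t then (fun r => ((Sq m D r).card : ℚ)) (t - ind (D (m + 1)))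
            else 0)) := by
      congr 1
      funext r
      rw [card_Sq_succ]
      push_cast
      rfl
    rw [h1, pow_succ, mul_assoc, one_sub_mul_partial,
      mk_shift (fun r => ((Sq m D r).card : ℚ)) (ind (D (m + 1))), mul_left_comm, ih,
      Finset.sum_range_succ _ (m + 1), pow_add, mul_comm]

end Pool.Agent.LibTypeB
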