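import Mathlib
import Pool.Agent.LibTypeB.Seq

set_option autoImplicit false

namespace Pool.Agent.LibTypeB

open Finset

/-- Descent indicator of `w`. -/
def Dw {m : ℕ} (w : Equiv.Perm (Fin (m + 1)) × (Fin (m + 1) → Bool)) : ℕ → Bool
  | 0 => w.2 0
  | k + 1 => if h : k < m then
      decide (sval w (Fin.succ ⟨k, h⟩) < sval w (Fin.castSucc ⟨k, h⟩)) else false

lemma Dw_succ {m : ℕ} (w : Equiv.Perm (Fin (m + 1)) × (Fin (m + 1) → Bool)) (i : Fin m) :
    Dw w ((i : ℕ) + 1) = decide (sval w i.succ < sval w i.castSucc) := by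
  simp only [Dw]
  rw [dif_pos i.2]

lemma sval_ne {n : ℕ} (w : Equiv.Perm (Fin n) × (Fin n → Bool)) {i j : Fin n} (h : i ≠ j) :
    sval w i ≠ sval w j := by
  intro he
  apply h
  apply w.1.injective
  apply Fin.ext
  unfold sval at he
  split_ifs at he <;> omega

lemma compat_iff {m : ℕ} (w : Equiv.Perm (Fin (m + 1)) × (Fin (m + 1) → Bool))
    (s : Fin (m + 1) → ℕ) (r : ℕ) :
    (Compat w s ∧ ∀ i, s i ≤ r) ↔ LocC m (Dw w) s r := by
  have hstep : ∀ i : Fin m, (toLex (s i.castSucc, sval w i.castSucc) <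
      toLex (s i.succ, sval w i.succ)) ↔
      s i.castSucc + ind (Dw w ((i : ℕ) + 1)) ≤ s i.succ := by
    intro i
    rw [Prod.Lex.toLex_lt_toLex', Dw_succ]
    simp only
    have hne : sval w i.castSucc ≠ sval w i.succ := sval_ne w (Fin.castSucc_lt_succ).ne
    by_cases hd : sval w i.succ < sval w i.castSucc
    · simp only [hd, decide_true, ind, if_true]
      constructor
      · rintro ⟨h1, h2⟩
        by_contra hcon
        have := h2 (by omega)
        omega
      · intro h
        refine ⟨by omega, fun h2 => ?_⟩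
        omega
    · simp only [hd, decide_false, ind]
      constructor
      · rintro ⟨h1, h2⟩
        simpa using h1
      · intro h
        simp only [Bool.false_eq_true, if_false, add_zero] at h
        refine ⟨h, fun _ => ?_⟩
        omega
  have hSM : (StrictMono fun i => toLex (s i, sval w i)) ↔
      ∀ i : Fin m, s i.castSucc + ind (Dw w ((i : ℕ) + 1)) ≤ s i.succ := by
    rw [Fin.strictMono_iff_lt_succ]
    exact forall_congr' hstep
  have hD0 : ind (Dw w 0) ≤ s 0 ↔ (s 0 = 0 → w.2 0 = false) := by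
    simp only [Dw, ind]
    by_cases h : w.2 0 = true
    · rw [if_pos h]
      constructor
      · intro h1 h2; omega
      · intro h1
        by_contra h2
        have := h1 (by omega)
        rw [h] at this
        exact absurd this (by simp)
    · rw [if_neg h]
      constructor
      · intro _ _
        simpa using h
      · intro _
        omega
  constructor
  · rintro ⟨hc, hr⟩
    exact ⟨hD0.2 (hc.2 0), hSM.1 hc.1, hr _⟩
  · intro h
    have hsm := hSM.2 h.2.1
    refine ⟨⟨hsm, ?_⟩, LocC_le h⟩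
    intro i hi
    have hmono := LocC_mono h
    have h0i : s 0 ≤ s i := hmono (Fin.zero_le i)
    have hs0 : s 0 = 0 := by omega
    have hw0 := hD0.1 h.1 hs0
    rcases Fin.eq_zero_or_eq_succ i with hi0 | ⟨j, hj⟩
    · rw [hi0]; exact hw0
    · have hlt : (0 : Fin (m + 1)) < i := by rw [hj]; exact Fin.succ_pos j
      have h1 := hsm hlt
      simp only at h1
      rw [Prod.Lex.toLex_lt_toLex'] at h1
      have h2 := h1.2 (by simp only; omega)
      simp only at h2
      rw [sval_false hw0] at h2
      rcases hwi : w.2 i with _ | _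
      · rfl
      · rw [sval_true hwi] at h2
        omega

/-- The exponent used in the frozen statement. -/
def desc {n : ℕ} (w : Equiv.Perm (Fin n) × (Fin n → Bool)) : ℕ :=
  (Finset.univ.filter (fun j : Fin n => j.val = 0 ∧ w.2 j = true)).card +
    (Finset.univ.filter (fun p : Fin n × Fin n => p.2.val = p.1.val + 1 ∧
      (if w.2 p.2 then (-1 : ℤ) else 1) * (((w.1 p.2 : ℕ) : ℤ) + 1) <
      (if w.2 p.1 then (-1 : ℤ) else 1) * (((w.1 p.1 : ℕ) : ℤ) + 1))).card

lemma desc_eq {m : ℕ} (w : Equiv.Perm (Fin (m + 1)) × (Fin (m + 1) → Bool)) :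
    ∑ i ∈ range (m + 1), ind (Dw w i) = desc w := by
  rw [Finset.sum_range_succ']
  unfold desc
  rw [add_comm]
  congr 1
  · simp only [Dw, ind]
    by_cases h : w.2 0 = true
    swap
    · symm
      rw [if_neg h]
      rw [Finset.card_eq_zero, Finset.filter_eq_empty_iff]
      intro j _ hj
      have : j = 0 := Fin.ext hj.1
      rw [this] at hj
      exact h hj.2
    · symm
      rw [if_pos h]
      rw [Finset.card_eq_one]
      refine ⟨0, ?_⟩
      ext j
      simp only [mem_filter, mem_univ, true_and, mem_singleton]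
      constructor
      · intro hj
        exact Fin.ext hj.1
      · rintro rfl
        exact ⟨rfl, h⟩
  · have h1 : ∑ i ∈ range m, ind (Dw w (i + 1)) = ∑ i : Fin m, ind (Dw w ((i : ℕ) + 1)) :=
      (Fin.sum_univ_eq_sum_range (fun i => ind (Dw w (i + 1))) m).symm
    rw [h1]
    have h2 : ∑ i : Fin m, ind (Dw w ((i : ℕ) + 1)) =
        (univ.filter (fun i : Fin m => sval w i.succ < sval w i.castSucc)).card := by
      rw [Finset.card_filter]
      apply Finset.sum_congr rfl
      intro i _
      rw [Dw_succ]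
      unfold ind
      simp only [decide_eq_true_eq]
    rw [h2]
    apply Finset.card_bij (fun i _ => (i.castSucc, i.succ))
    · intro i hi
      rw [mem_filter] at hi ⊢
      refine ⟨mem_univ _, ?_, hi.2⟩
      simp
    · intro i _ j _ hij
      simp only [Prod.mk.injEq] at hij
      exact Fin.castSucc_injective _ hij.1
    · intro p hp
      rw [mem_filter] at hp
      obtain ⟨a, b⟩ := p
      obtain ⟨-, hab, hlt⟩ := hp
      simp only at hab hlt
      have hb := b.2
      refine ⟨⟨a, by omega⟩, ?_, ?_⟩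
      · rw [mem_filter]
        refine ⟨mem_univ _, ?_⟩
        have e1 : Fin.succ (⟨a, by omega⟩ : Fin m) = b := Fin.ext (by simp [hab])
        have e2 : Fin.castSucc (⟨a, by omega⟩ : Fin m) = a := Fin.ext (by simp)
        rw [e1, e2]
        exact hlt
      · have e1 : Fin.succ (⟨a, by omega⟩ : Fin m) = b := Fin.ext (by simp [hab])
        have e2 : Fin.castSucc (⟨a, by omega⟩ : Fin m) = a := Fin.ext (by simp)
        rw [e1, e2]

/-- The involutions of the frozen statement. -/
def Wset (n : ℕ) : Finset (Equiv.Perm (Fin n) × (Fin n → Bool)) :=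
  (Finset.univ : Finset (Equiv.Perm (Fin n) × (Fin n → Bool))).filter
        (fun w => ∀ i : Fin n, w.1 (w.1 i) = i ∧ w.2 (w.1 i) = w.2 i)

lemma mem_Wset {n : ℕ} {w : Equiv.Perm (Fin n) × (Fin n → Bool)} : w ∈ Wset n ↔ IsInvo w := by
  unfold Wset IsInvo
  simp

theorem count_pairs (m r : ℕ) :
    ∑ w ∈ Wset (m + 1), (Sq m (Dw w) r).card = (Inv (Om r) tau (m + 1)).card := by
  rw [← Finset.card_sigma]
  apply Finset.card_bij (fun x _ => mult x.1 x.2)
  · rintro ⟨w, s⟩ hx
    rw [mem_sigma, mem_Wset, mem_Sq, ← compat_iff] at hx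
    exact hx.2.1.mult_mem hx.1 hx.2.2
  · rintro ⟨w, s⟩ hx ⟨w', s'⟩ hx' h
    rw [mem_sigma, mem_Wset, mem_Sq, ← compat_iff] at hx hx'
    obtain ⟨h1, h2⟩ := mult_inj hx.2.1 hx.1 hx'.2.1 hx'.1 h
    simp only at h1 h2
    subst h1
    subst h2
    rfl
  · intro M hM
    obtain ⟨w, s, hc, hi, hr, hm⟩ := exists_pair hM
    refine ⟨⟨w, s⟩, ?_, hm⟩
    rw [mem_sigma, mem_Wset, mem_Sq, ← compat_iff]
    exact ⟨hi, hc, hr⟩

open PowerSeries in
/-- Generating function identity for the descent polynomial of signed involutions. -/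
theorem descent_series (m : ℕ) :
    (1 - X : ℚ⟦X⟧) ^ (m + 2) *
      PowerSeries.mk (fun r => ((Inv (Om r) tau (m + 1)).card : ℚ)) =
      ∑ w ∈ Wset (m + 1), X ^ desc w := by
  have h1 : PowerSeries.mk (fun r => ((Inv (Om r) tau (m + 1)).card : ℚ)) =
      ∑ w ∈ Wset (m + 1), PowerSeries.mk (fun r => ((Sq m (Dw w) r).card : ℚ)) := by
    ext r
    rw [map_sum, coeff_mk, ← count_pairs]
    push_cast
    apply Finset.sum_congr rfl
    intro w _
    rw [coeff_mk]
  rw [h1, Finset.mul_sum]
  apply Finset.sum_congr rfl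
  intro w _
  rw [seq_series, desc_eq]

end Pool.Agent.LibTypeB
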