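import Mathlib
import Pool.Agent.LibTypeB.Link
import Pool.Agent.LibTypeB.Gam

set_option autoImplicit false

namespace Pool.Agent.LibTypeB

open PowerSeries

/-- Derivative. -/
noncomputable def dd (f : ℚ⟦X⟧) : ℚ⟦X⟧ := derivative ℚ f

lemma dd_add (f g : ℚ⟦X⟧) : dd (f + g) = dd f + dd g := map_add _ f g

lemma dd_smul (a : ℚ) (f : ℚ⟦X⟧) : dd (a • f) = a • dd f := (derivative ℚ).map_smul a f

lemma dd_mul (f g : ℚ⟦X⟧) : dd (f * g) = f * dd g + g * dd f := by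
  have := (derivative ℚ).leibniz f g
  simp only [smul_eq_mul] at this
  exact this

lemma dd_X : dd (X : ℚ⟦X⟧) = 1 := derivative_X

lemma dd_one : dd (1 : ℚ⟦X⟧) = 0 := derivative_one

lemma dd_one_sub : dd (1 - X : ℚ⟦X⟧) = -1 := by
  have : dd (1 - X : ℚ⟦X⟧) = dd 1 - dd X := map_sub _ 1 X
  rw [this, dd_one, dd_X]; ring

lemma dd_one_add : dd (1 + X : ℚ⟦X⟧) = 1 := by
  rw [dd_add, dd_one, dd_X]; ring

lemma dd_pow_succ (f : ℚ⟦X⟧) (n : ℕ) : dd (f ^ (n + 1)) = ((n : ℚ⟦X⟧) + 1) * f ^ n * dd f := by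
  induction n with
  | zero => simp
  | succ n ih =>
    rw [pow_succ, dd_mul, ih]
    push_cast
    ring

lemma X_dd_X_pow (j : ℕ) : X * dd (X ^ j : ℚ⟦X⟧) = (j : ℚ⟦X⟧) * X ^ j := by
  cases j with
  | zero => simp [dd_one]
  | succ j =>
    rw [dd_pow_succ, dd_X]
    push_cast
    ring

/-- The operator `2 X d/dX + 1`. -/
noncomputable def EE (f : ℚ⟦X⟧) : ℚ⟦X⟧ := 2 * X * dd f + f

lemma coeff_EE (f : ℚ⟦X⟧) (r : ℕ) : coeff r (EE f) = (2 * (r : ℚ) + 1) * coeff r f := by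
  unfold EE
  rw [map_add]
  have h2 : (2 * X * dd f : ℚ⟦X⟧) = (2 : ℚ) • (X * dd f) := by
    rw [mul_assoc]
    have : (2 : ℚ⟦X⟧) = C (2 : ℚ) := (map_ofNat C 2).symm
    rw [this, ← smul_eq_C_mul]
  rw [h2, map_smul, smul_eq_mul]
  cases r with
  | zero => simp
  | succ r =>
    rw [coeff_succ_X_mul]
    unfold dd
    rw [coeff_derivative]
    push_cast
    ring

/-- The induced operator on numerators. -/
noncomputable def Del (N : ℕ) (p : ℚ⟦X⟧) : ℚ⟦X⟧ :=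
  2 * X * (1 - X) * dd p + (1 + (2 * (N : ℚ⟦X⟧) + 1) * X) * p

lemma del_of (N : ℕ) (S p : ℚ⟦X⟧) (h : (1 - X) ^ (N + 1) * S = p) :
    (1 - X) ^ (N + 2) * EE S = Del N p := by
  rw [← h]
  unfold Del EE
  rw [dd_mul, dd_pow_succ, dd_one_sub]
  ring

/-- Basis polynomials. -/
noncomputable def bb (N j : ℕ) : ℚ⟦X⟧ := X ^ j * (1 + X) ^ (N - 2 * j)

lemma del_bb (N j : ℕ) (h : 2 * j ≤ N) :
    Del N (bb N j) = (2 * (j : ℚ) + 1) • bb (N + 1) j +
      (4 * ((N : ℚ) - 2 * (j : ℚ))) • bb (N + 1) (j + 1) := by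
  obtain ⟨m, rfl⟩ := Nat.exists_eq_add_of_le h
  rw [smul_eq_C_mul, smul_eq_C_mul]
  unfold bb Del
  have e1 : 2 * j + m - 2 * j = m := by omega
  have e2 : 2 * j + m + 1 - 2 * j = m + 1 := by omega
  rw [e1, e2]
  have hXd : ∀ f : ℚ⟦X⟧, 2 * X * (1 - X) * dd (X ^ j * f) =
      2 * (1 - X) * ((j : ℚ⟦X⟧) * X ^ j * f + X ^ j * (X * dd f)) := by
    intro f
    rw [dd_mul, ← X_dd_X_pow j]
    ring
  rw [hXd]
  cases m with
  | zero =>
    have e4 : (4 * (((2 * j + 0 : ℕ) : ℚ) - 2 * (j : ℚ))) = 0 := by push_cast; ring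
    rw [pow_zero, dd_one, e4, map_zero, zero_mul, add_zero]
    push_cast
    simp only [map_add, map_mul, map_one, map_ofNat, map_natCast]
    ring
  | succ m =>
    have e3 : 2 * j + (m + 1) + 1 - 2 * (j + 1) = m := by omega
    rw [e3, dd_pow_succ, dd_one_add]
    push_cast
    simp only [map_add, map_mul, map_one, map_ofNat, map_natCast, map_sub]
    ring

lemma sq_bb (N j : ℕ) (h : 2 * j ≤ N) :
    (1 - X) ^ 2 * bb N j = bb (N + 2) j - (4 : ℚ) • bb (N + 2) (j + 1) := by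
  obtain ⟨m, rfl⟩ := Nat.exists_eq_add_of_le h
  rw [smul_eq_C_mul]
  unfold bb
  have e1 : 2 * j + m - 2 * j = m := by omega
  have e2 : 2 * j + m + 2 - 2 * j = m + 2 := by omega
  have e3 : 2 * j + m + 2 - 2 * (j + 1) = m := by omega
  rw [e1, e2, e3]
  simp only [map_ofNat]
  ring

/-- Polynomials from gamma coefficients. -/
noncomputable def PP (N : ℕ) (g : ℕ → ℚ) : ℚ⟦X⟧ := ∑ k ∈ Finset.range (N + 1), g k • bb N k

lemma sum_shift (n : ℕ) (v : ℕ → ℚ) (B : ℕ → ℚ⟦X⟧) :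
    ∑ k ∈ Finset.range n, v k • B (k + 1) = ∑ k ∈ Finset.range (n + 1), sh v k • B k := by
  rw [Finset.sum_range_succ']
  simp [sh]

lemma Del_sum (N n : ℕ) (g : ℕ → ℚ) (B : ℕ → ℚ⟦X⟧) :
    Del N (∑ k ∈ Finset.range n, g k • B k) = ∑ k ∈ Finset.range n, g k • Del N (B k) := by
  induction n with
  | zero =>
    simp only [Finset.range_zero, Finset.sum_empty]
    unfold Del
    have : dd 0 = 0 := map_zero _
    rw [this]; ring
  | succ n ih =>
    rw [Finset.sum_range_succ, Finset.sum_range_succ, ← ih]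
    unfold Del
    rw [dd_add, dd_smul]
    simp only [smul_eq_C_mul]
    ring

lemma Del_PP (N : ℕ) (g : ℕ → ℚ) (hg : ∀ k, N < 2 * k → g k = 0) :
    Del N (PP N g) = PP (N + 1) (Dop N g) := by
  unfold PP
  rw [Del_sum]
  have h1 : ∀ k ∈ Finset.range (N + 1), g k • Del N (bb N k) =
      ((2 * (k : ℚ) + 1) * g k) • bb (N + 1) k +
        (4 * ((N : ℚ) - 2 * (k : ℚ)) * g k) • bb (N + 1) (k + 1) := by
    intro k _
    rcases Nat.lt_or_ge N (2 * k) with h | h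
    · rw [hg k h]; simp
    · rw [del_bb N k h, smul_add, smul_smul, smul_smul]
      congr 2
      · ring
      · ring
  rw [Finset.sum_congr rfl h1, Finset.sum_add_distrib,
    sum_shift (N + 1) (fun k => 4 * ((N : ℚ) - 2 * (k : ℚ)) * g k) (fun k => bb (N + 1) k)]
  have h2 : ∑ k ∈ Finset.range (N + 1), ((2 * (k : ℚ) + 1) * g k) • bb (N + 1) k =
      ∑ k ∈ Finset.range (N + 1 + 1), ((2 * (k : ℚ) + 1) * g k) • bb (N + 1) k := by
    rw [Finset.sum_range_succ _ (N + 1), hg (N + 1) (by omega)]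
    simp
  rw [h2, ← Finset.sum_add_distrib]
  apply Finset.sum_congr rfl
  intro k _
  rw [← add_smul]
  rfl

lemma sq_PP (N : ℕ) (g : ℕ → ℚ) (hg : ∀ k, N < 2 * k → g k = 0) :
    (1 - X) ^ 2 * PP N g = PP (N + 2) (Mop g) := by
  unfold PP
  rw [Finset.mul_sum]
  have h1 : ∀ k ∈ Finset.range (N + 1), (1 - X) ^ 2 * (g k • bb N k) =
      g k • bb (N + 2) k - (4 * g k) • bb (N + 2) (k + 1) := by
    intro k _
    rcases Nat.lt_or_ge N (2 * k) with h | h
    · rw [hg k h]; simp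
    · rw [mul_smul_comm, sq_bb N k h, smul_sub, smul_smul]
      congr 2
      ring
  rw [Finset.sum_congr rfl h1, Finset.sum_sub_distrib,
    sum_shift (N + 1) (fun k => 4 * g k) (fun k => bb (N + 2) k)]
  have h2 : ∑ k ∈ Finset.range (N + 1), g k • bb (N + 2) k =
      ∑ k ∈ Finset.range (N + 2 + 1), g k • bb (N + 2) k := by
    rw [Finset.sum_range_succ _ (N + 2), Finset.sum_range_succ _ (N + 1),
      hg (N + 1) (by omega), hg (N + 2) (by omega)]
    simp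
  have h3 : ∑ k ∈ Finset.range (N + 1 + 1), sh (fun k => 4 * g k) k • bb (N + 2) k =
      ∑ k ∈ Finset.range (N + 2 + 1), sh (fun k => 4 * g k) k • bb (N + 2) k := by
    rw [Finset.sum_range_succ _ (N + 2)]
    have : sh (fun k => 4 * g k) (N + 2) = 0 := by
      simp only [sh]
      rw [hg (N + 1) (by omega), mul_zero]
    rw [this]
    simp
  rw [h2, h3, ← Finset.sum_sub_distrib]
  apply Finset.sum_congr rfl
  intro k _
  rw [← sub_smul]
  rfl

/-- The counting series. -/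
noncomputable def SS (n : ℕ) : ℚ⟦X⟧ := PowerSeries.mk (fun r => ((Inv (Om r) tau n).card : ℚ))

lemma coeff_SS (n r : ℕ) : coeff r (SS n) = ((Inv (Om r) tau n).card : ℚ) := coeff_mk _ _

lemma SS_rec (n : ℕ) : (2 * ((n : ℚ) + 2)) • SS (n + 2) =
    (2 : ℚ) • EE (SS (n + 1)) + EE (EE (SS n)) + (2 * (n : ℚ) + 1) • SS n := by
  ext r
  have h := inv_rec (Ω := Om r) (τ := tau) (fun x hx => tau_mem x hx) (fun x hx => tau_tau x hx) n
  rw [fixCard_Om, card_Om] at h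
  have h' : ((n : ℚ) + 2) * ((Inv (Om r) tau (n + 2)).card : ℚ) =
      (2 * (r : ℚ) + 1) * ((Inv (Om r) tau (n + 1)).card : ℚ) +
      (2 * (r : ℚ) * r + 2 * r + 1 + n) * ((Inv (Om r) tau n).card : ℚ) := by
    exact_mod_cast h
  simp only [map_add, map_smul, smul_eq_mul, coeff_EE, coeff_SS]
  linear_combination 2 * h'

lemma SS_zero : SS 0 = PowerSeries.mk (fun _ => (1 : ℚ)) := by
  ext r
  rw [coeff_SS, inv_zero, coeff_mk]
  simp

lemma one_sub_SS_zero : (1 - X : ℚ⟦X⟧) * SS 0 = 1 := by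
  rw [SS_zero]
  have h3 : PowerSeries.mk (fun _ => (1 : ℚ)) =
      PowerSeries.mk (fun r => ∑ t ∈ Finset.range (r + 1), (if t = 0 then (1 : ℚ) else 0)) := by
    congr 1
    funext r
    rw [Finset.sum_ite_eq']
    simp
  rw [h3, one_sub_mul_partial]
  ext n
  rw [coeff_mk, coeff_one]

lemma SS_one : SS 1 = EE (SS 0) := by
  ext r
  rw [coeff_SS, coeff_EE, coeff_SS, inv_zero,
    inv_one (fun x hx => tau_mem x hx) (fun x hx => tau_tau x hx), fixCard_Om]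
  push_cast
  ring

/-- The numerators. -/
noncomputable def Pn (n : ℕ) : ℚ⟦X⟧ := (1 - X) ^ (n + 1) * SS n

lemma Pn_zero : Pn 0 = 1 := by
  unfold Pn
  rw [zero_add, pow_one, one_sub_SS_zero]

lemma Pn_one : Pn 1 = Del 0 1 := by
  unfold Pn
  rw [SS_one]
  exact del_of 0 (SS 0) 1 (by rw [zero_add, pow_one, one_sub_SS_zero])

lemma Pn_rec (n : ℕ) : (2 * ((n : ℚ) + 2)) • Pn (n + 2) =
    (2 : ℚ) • Del (n + 1) (Pn (n + 1)) + Del (n + 1) (Del n (Pn n)) +
      (2 * (n : ℚ) + 1) • ((1 - X) ^ 2 * Pn n) := by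
  have h1 : (1 - X) ^ (n + 3) * EE (SS (n + 1)) = Del (n + 1) (Pn (n + 1)) :=
    del_of (n + 1) (SS (n + 1)) (Pn (n + 1)) rfl
  have h2 : (1 - X) ^ (n + 2) * EE (SS n) = Del n (Pn n) := del_of n (SS n) (Pn n) rfl
  have h3 : (1 - X) ^ (n + 3) * EE (EE (SS n)) = Del (n + 1) (Del n (Pn n)) :=
    del_of (n + 1) (EE (SS n)) (Del n (Pn n)) h2
  have h4 : (2 * ((n : ℚ) + 2)) • Pn (n + 2) =
      (1 - X) ^ (n + 3) * ((2 * ((n : ℚ) + 2)) • SS (n + 2)) := by
    unfold Pn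
    rw [mul_smul_comm]
  rw [h4, SS_rec, ← h1, ← h3]
  unfold Pn
  simp only [smul_eq_C_mul]
  ring

lemma PP_smul (N : ℕ) (a : ℚ) (g : ℕ → ℚ) : a • PP N g = PP N (fun k => a * g k) := by
  unfold PP
  rw [Finset.smul_sum]
  apply Finset.sum_congr rfl
  intro k _
  rw [smul_smul]

lemma PP_add (N : ℕ) (g h : ℕ → ℚ) : PP N g + PP N h = PP N (fun k => g k + h k) := by
  unfold PP
  rw [← Finset.sum_add_distrib]
  apply Finset.sum_congr rfl
  intro k _
  rw [add_smul]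

theorem Pn_eq_aux (n : ℕ) : Pn n = PP n (gam n) ∧ Pn (n + 1) = PP (n + 1) (gam (n + 1)) := by
  induction n with
  | zero =>
    have h0 : Pn 0 = PP 0 (gam 0) := by
      rw [Pn_zero]
      unfold PP bb
      simp [gam]
    refine ⟨h0, ?_⟩
    rw [zero_add, Pn_one, ← Pn_zero, h0, Del_PP 0 (gam 0) (fun k hk => gam_supp 0 k hk)]
    congr 1
    funext k
    unfold Dop
    simp only [gam]
    match k with
    | 0 => simp [sh]
    | 1 => simp [sh]
    | k + 2 => simp [sh]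
  | succ n ih =>
    refine ⟨ih.2, ?_⟩
    have h := Pn_rec n
    rw [ih.1, ih.2, Del_PP _ _ (fun k hk => gam_supp _ k hk),
      Del_PP _ _ (fun k hk => gam_supp _ k hk),
      Del_PP _ _ (Dop_supp (fun k hk => gam_supp _ k hk)),
      sq_PP _ _ (fun k hk => gam_supp _ k hk), PP_smul, PP_smul, PP_add, PP_add] at h
    have hne : (2 * ((n : ℚ) + 2)) ≠ 0 := by positivity
    have h2 : Pn (n + 2) = (2 * ((n : ℚ) + 2))⁻¹ • ((2 * ((n : ℚ) + 2)) • Pn (n + 2)) := by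
      rw [smul_smul, inv_mul_cancel₀ hne, one_smul]
    rw [h2, h, PP_smul]
    congr 1
    funext k
    rw [gam_eq]
    field_simp

theorem Pn_eq (n : ℕ) : Pn n = PP n (gam n) := (Pn_eq_aux n).1

end Pool.Agent.LibTypeB
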