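import Mathlib
import Pool.Agent.LibTypeB.Rec

set_option autoImplicit false

namespace Pool.Agent.LibTypeB

open Polynomial

/-- Integer basis polynomials. -/
noncomputable def bz (N j : ℕ) : ℤ[X] := X ^ j * (1 + X) ^ (N - 2 * j)

lemma coe_bz (N j : ℕ) :
    (((bz N j).map (Int.castRingHom ℚ) : ℚ[X]) : PowerSeries ℚ) = bb N j := by
  unfold bz bb
  simp [Polynomial.coe_mul, Polynomial.coe_pow, Polynomial.coe_add]

lemma coeff_bz_self (N j : ℕ) : (bz N j).coeff j = 1 := by
  unfold bz
  rw [Polynomial.coeff_X_pow_mul']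
  simp [Polynomial.coeff_zero_eq_eval_zero]

lemma coeff_bz_lt (N j k : ℕ) (h : k < j) : (bz N j).coeff k = 0 := by
  unfold bz
  rw [Polynomial.coeff_X_pow_mul', if_neg (by omega)]

/-- Integer coefficients. -/
lemma int_coeffs {N : ℕ} {g : ℕ → ℚ} (hg : ∀ k, N < 2 * k → g k = 0) (I : ℤ[X])
    (h : I.map (Int.castRingHom ℚ) =
      ∑ k ∈ Finset.range (N + 1), C (g k) * (bz N k).map (Int.castRingHom ℚ)) :
    ∀ k, ∃ z : ℤ, g k = z := by
  intro k
  induction k using Nat.strong_induction_on with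
  | _ k ih =>
  rcases Nat.lt_or_ge N (2 * k) with hk | hk
  · exact ⟨0, by rw [hg k hk]; simp⟩
  · choose! z hz using ih
    have hc := congrArg (fun p => p.coeff k) h
    simp only [Polynomial.finsetSum_coeff, Polynomial.coeff_C_mul, Polynomial.coeff_map] at hc
    have hsplit : ∑ j ∈ Finset.range (N + 1), g j * (Int.castRingHom ℚ) ((bz N j).coeff k) =
        ∑ j ∈ Finset.range (k + 1), g j * (Int.castRingHom ℚ) ((bz N j).coeff k) := by
      symm
      apply Finset.sum_subset
      · intro j hj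
        rw [Finset.mem_range] at *
        omega
      · intro j _ hj
        rw [Finset.mem_range] at hj
        rw [coeff_bz_lt N j k (by omega)]
        simp
    rw [hsplit, Finset.sum_range_succ, coeff_bz_self] at hc
    have hsum : ∑ j ∈ Finset.range k, g j * (Int.castRingHom ℚ) ((bz N j).coeff k) =
        ((∑ j ∈ Finset.range k, z j * (bz N j).coeff k : ℤ) : ℚ) := by
      push_cast
      apply Finset.sum_congr rfl
      intro j hj
      rw [Finset.mem_range] at hj
      rw [hz j hj]
      simp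
    rw [hsum] at hc
    refine ⟨I.coeff k - ∑ j ∈ Finset.range k, z j * (bz N j).coeff k, ?_⟩
    rw [Int.cast_sub]
    simp only [map_one, mul_one, eq_intCast] at hc
    linarith

theorem main_pos (m : ℕ) : ∃ γ : ℕ → ℕ,
    (∑ w ∈ Wset (m + 1), (X : ℤ[X]) ^ desc w) =
      ∑ i ∈ Finset.range ((m + 1) / 2 + 1),
        C (γ i : ℤ) * X ^ i * (1 + X) ^ (m + 1 - 2 * i) := by
  set N := m + 1 with hN
  set I : ℤ[X] := ∑ w ∈ Wset N, (X : ℤ[X]) ^ desc w with hI
  have h1 : ((I.map (Int.castRingHom ℚ) : ℚ[X]) : PowerSeries ℚ) = PP N (gam N) := by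
    rw [← Pn_eq N]
    have h2 := descent_series m
    have h3 : Pn N = (1 - PowerSeries.X) ^ (m + 2) *
      PowerSeries.mk (fun r => ((Inv (Om r) tau (m + 1)).card : ℚ)) := rfl
    rw [h3, h2, hI, Polynomial.map_sum]
    have h4 : ((∑ w ∈ Wset N, ((X : ℤ[X]) ^ desc w).map (Int.castRingHom ℚ) : ℚ[X]) :
        PowerSeries ℚ) = Polynomial.coeToPowerSeries.ringHom
          (∑ w ∈ Wset N, ((X : ℤ[X]) ^ desc w).map (Int.castRingHom ℚ)) := rfl
    rw [h4, map_sum]
    apply Finset.sum_congr rfl
    intro w _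
    simp
  have h5 : I.map (Int.castRingHom ℚ) =
      ∑ k ∈ Finset.range (N + 1), C (gam N k) * (bz N k).map (Int.castRingHom ℚ) := by
    apply Polynomial.coe_injective ℚ
    rw [h1]
    have h6 : ((∑ k ∈ Finset.range (N + 1), C (gam N k) * (bz N k).map (Int.castRingHom ℚ) : ℚ[X]) :
        PowerSeries ℚ) = Polynomial.coeToPowerSeries.ringHom
          (∑ k ∈ Finset.range (N + 1), C (gam N k) * (bz N k).map (Int.castRingHom ℚ)) := rfl
    rw [h6, map_sum]
    unfold PP
    apply Finset.sum_congr rfl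
    intro k _
    rw [map_mul]
    simp only [Polynomial.coeToPowerSeries.ringHom_apply]
    rw [coe_bz, Polynomial.coe_C, PowerSeries.smul_eq_C_mul]
  have hsupp : ∀ k, N < 2 * k → gam N k = 0 := fun k hk => gam_supp N k hk
  choose z hz using int_coeffs hsupp I h5
  have hz0 : ∀ k, 0 ≤ z k := by
    intro k
    have := gam_nonneg N k
    rw [hz k] at this
    exact_mod_cast this
  refine ⟨fun k => (z k).toNat, ?_⟩
  have h7 : I = ∑ k ∈ Finset.range (N + 1), C (z k) * bz N k := by
    apply Polynomial.map_injective (Int.castRingHom ℚ) Int.cast_injective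
    rw [h5, Polynomial.map_sum]
    apply Finset.sum_congr rfl
    intro k _
    rw [Polynomial.map_mul, Polynomial.map_C, hz k]
    simp
  rw [h7]
  symm
  have h8 : ∀ i, C (((z i).toNat : ℕ) : ℤ) * X ^ i * (1 + X) ^ (N - 2 * i) =
      C (z i) * bz N i := by
    intro i
    rw [Int.toNat_of_nonneg (hz0 i)]
    unfold bz
    ring
  rw [Finset.sum_congr rfl (fun i _ => h8 i)]
  apply Finset.sum_subset
  · intro j hj
    rw [Finset.mem_range] at *
    omega
  · intro j _ hj
    rw [Finset.mem_range] at hj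
    have h9 : gam N j = 0 := hsupp j (by omega)
    rw [hz j] at h9
    have h10 : z j = 0 := by exact_mod_cast h9
    rw [h10]
    simp

end Pool.Agent.LibTypeB
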